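import Pool.Agent.Helper75.CC.Gt

/-! ROW 0: the cell of level `c` of the coordinate `t` is known to the label, if the label knows a polynomial in `x_t`
with tame values and a large derivative at the point. -/

set_option autoImplicit false

namespace Pool.Agent.Helper56.R0

open Finset Filter Topology Pool.Agent.Helper69.RK Pool.Agent.Helper31.EC Pool.Agent.Helper31.EC.Sp
open Pool.Agent.Helper40.EL Pool.Agent.Helper89.LX Pool.Agent.Helper3.LF Pool.Agent.Helper84.MT Pool.Agent.Helper36.AM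
open Pool.Agent.Helper7.GZ Pool.Agent.Helper75.CC

noncomputable section

variable {S : Sp} {N : ℕ} {E : ℕ → ℕ} {ι : Type}

/-- the polynomial in one variable -/
def up (t : Fin N) (p : MvPolynomial (Fin N) ℝ) : Polynomial ℝ :=
  ∑ α ∈ p.support, Polynomial.C (p.coeff α) * Polynomial.X ^ (α t)

theorem up_sum {t : Fin N} {p : MvPolynomial (Fin N) ℝ} (hv : ∀ i ∈ p.vars, i = t) :
    p = ∑ α ∈ p.support, MvPolynomial.C (p.coeff α) * MvPolynomial.X t ^ (α t) := by
  classical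
  conv_lhs => rw [MvPolynomial.as_sum p]
  refine Finset.sum_congr rfl fun α hα => ?_
  have h1 : α = Finsupp.single t (α t) := by
    refine Finsupp.ext fun i => ?_
    by_cases hi : i = t
    · rw [hi, Finsupp.single_eq_same]
    · rw [Finsupp.single_eq_of_ne hi]
      by_contra h0
      exact hi (hv i ((MvPolynomial.mem_vars_iff_mem_support i).mpr ⟨α, hα, Finsupp.mem_support_iff.mpr h0⟩))
  rw [MvPolynomial.C_mul_X_pow_eq_monomial, ← h1]

theorem up_eval {t : Fin N} {p : MvPolynomial (Fin N) ℝ} (hv : ∀ i ∈ p.vars, i = t) (x : Fin N → ℝ) :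
    MvPolynomial.eval x p = (up t p).eval (x t) := by
  conv_lhs => rw [up_sum hv]
  unfold up
  rw [map_sum, Polynomial.eval_finsetSum]
  refine Finset.sum_congr rfl fun α _ => ?_
  simp

theorem up_der {t : Fin N} {p : MvPolynomial (Fin N) ℝ} (hv : ∀ i ∈ p.vars, i = t) (x : Fin N → ℝ) :
    MvPolynomial.eval x (MvPolynomial.pderiv t p) = (up t p).derivative.eval (x t) := by
  conv_lhs => rw [up_sum hv]
  unfold up
  rw [map_sum, map_sum, Polynomial.derivative_sum, Polynomial.eval_finsetSum]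
  refine Finset.sum_congr rfl fun α _ => ?_
  rw [MvPolynomial.pderiv_C_mul, MvPolynomial.pderiv_pow, MvPolynomial.pderiv_X_self, Polynomial.derivative_C_mul,
    Polynomial.derivative_X_pow]
  simp

theorem up_deg {t : Fin N} {p : MvPolynomial (Fin N) ℝ} {D : ℕ} (hD : p.totalDegree ≤ D) :
    (up t p).natDegree ≤ D := by
  unfold up
  refine Polynomial.natDegree_sum_le_of_forall_le _ _ fun α hα => ?_
  exact (Polynomial.natDegree_C_mul_X_pow_le _ _).trans (exp_le hD hα t)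

/-- among `2 D + 4` points at which a polynomial is bounded and has a large derivative two are close -/
theorem two_close (D : ℕ) : ∃ C₀ : ℝ, 1 ≤ C₀ ∧ ∀ (A B τ : ℝ), 0 < τ → 0 < B → B ≤ A → ∀ (f : Polynomial ℝ),
    f.natDegree ≤ D → ∀ y : Fin (2 * (D + 1) + 2) → ℝ, (∀ i, |f.eval (y i)| ≤ A) →
      (∀ i, B ≤ |f.derivative.eval (y i)| * τ) → ∃ i j, i ≠ j ∧ |y i - y j| ≤ C₀ * (A / B) * τ := by
  obtain ⟨C₀, h1, h2⟩ := branches (D + 1) 0 0
  refine ⟨C₀, h1, fun A B τ hτ hB hBA f hf y hA hd => ?_⟩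
  have e1 : ∀ (i : Fin (2 * (D + 1) + 2)) (t z : ℝ), f.eval ((Polynomial.C (y i)).eval t + z) =
      ∑ m ∈ range (D + 1 + 1), (Polynomial.C ((Polynomial.taylor (y i) f).coeff m)).eval t * z ^ m := by
    intro i t z
    rw [Polynomial.eval_C, add_comm (y i) z, ← Polynomial.taylor_eval (y i) f z,
      Polynomial.eval_eq_sum_range' (n := D + 1 + 1) (by rw [Polynomial.natDegree_taylor]; omega)]
    refine Finset.sum_congr rfl fun m _ => ?_
    rw [Polynomial.eval_C]
  have e2 : ∀ i : Fin (2 * (D + 1) + 2), ∃ m, 1 ≤ m ∧ m ≤ D + 1 ∧ ∃ t : ℝ, 0 ≤ t ∧ t ≤ 1 ∧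
      B ≤ |(Polynomial.C ((Polynomial.taylor (y i) f).coeff m)).eval t| * τ ^ m := by
    refine fun i => ⟨1, le_rfl, by omega, 0, le_rfl, zero_le_one, ?_⟩
    rw [Polynomial.eval_C, Polynomial.taylor_coeff_one, pow_one]
    exact hd i
  obtain ⟨i, j, hij, h3⟩ := h2 A B τ hτ hB hBA (fun i => Polynomial.C (y i)) (fun _ => f)
    (fun i m => Polynomial.C ((Polynomial.taylor (y i) f).coeff m)) (fun i => (Polynomial.natDegree_C _).le)
    (fun _ => hf.trans (Nat.le_succ D)) (fun i m => (Polynomial.natDegree_C _).le) e1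
    (fun i t _ _ => by rw [Polynomial.eval_C]; exact hA i) e2
  refine ⟨i, j, hij, ?_⟩
  have h4 := h3 0 le_rfl zero_le_one
  rwa [Polynomial.eval_C, Polynomial.eval_C] at h4

/-- representatives: a function of the predicate -/
theorem exists_rp {α : Type} [Finite α] (n : ℕ) (x : α → ℝ) (T : ℝ) (hT : 0 ≤ T) (g : α → Prop)
    (h : ∀ f : Fin (n + 1) → α, (∀ i, g (f i)) → ∃ i j, i ≠ j ∧ |x (f i) - x (f j)| ≤ T) :
    ∃ R : Fin n → ℝ, ∀ a, g a → ∃ i, |x a - R i| ≤ T := by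
  classical
  obtain ⟨s, hs, hg, hr⟩ := exists_reps n g (fun a b => |x a - x b| ≤ T) (fun a _ => by rw [sub_self, abs_zero]; exact hT)
    (fun f hf => by
      obtain ⟨i, j, hij, h1⟩ := h f hf
      exact ⟨i, j, hij, Or.inl h1⟩)
  obtain ⟨e⟩ : Nonempty (s ↪ Fin n) := by
    rw [← Cardinal.lift_mk_le']
    simp only [Cardinal.mk_fintype, Fintype.card_coe, Fintype.card_fin, Cardinal.lift_natCast]
    exact_mod_cast hs
  refine ⟨fun i => if h : ∃ b : s, e b = i then x h.choose.1 else 0, fun a ha => ?_⟩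
  obtain ⟨b, hb, hab⟩ := hr a ha
  refine ⟨e ⟨b, hb⟩, ?_⟩
  have h1 : ∃ b' : s, e b' = e ⟨b, hb⟩ := ⟨_, rfl⟩
  have h5 : (fun i => if h : ∃ b : s, e b = i then x h.choose.1 else 0) (e ⟨b, hb⟩) = x b := by
    show (if h : ∃ b' : s, e b' = e ⟨b, hb⟩ then x h.choose.1 else 0) = x b
    rw [dif_pos h1, e.injective h1.choose_spec]
  rw [h5]
  rcases hab with h2 | h2
  · exact h2
  · rw [abs_sub_comm]
    exact h2

/-- a function with boundedly many values has no entropy -/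
theorem nul_fin' {β : Type} [Finite β] (b : ∀ k, (S.F k).Ω → β) (y : Part S) :
    PLe (S := S) (fun k => fc (Setoid.ker (b k))) y := by
  classical
  have := Fintype.ofFinite β
  have h1 : ∀ k, h (fc (Setoid.ker (b k)) : FL (S.F k)) (y k) ≤ Real.logb 2 (Fintype.card β) := by
    intro k
    refine (h_anti bot_le).trans ?_
    have h2 : (⊥ : FL (S.F k)) = fc (⊤ : Setoid (S.F k).Ω) := fc_top.symm
    rw [h2]
    refine h_le_log _ _ _ fun ω _ => ?_
    set e : Fin (Fintype.card β) ≃ β := (Fintype.equivFin β).symm with he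
    refine nvf_le_card _ _ _ _ (Fintype.card β) (fun i =>
      if hi : ∃ ω', b k ω' = e i then Quotient.mk (Setoid.ker (b k)) hi.choose
      else Quotient.mk (Setoid.ker (b k)) ω) fun ω' _ _ => ⟨e.symm (b k ω'), ?_⟩
    have hi : ∃ ω'', b k ω'' = e (e.symm (b k ω')) := ⟨ω', by rw [Equiv.apply_symm_apply]⟩
    rw [dif_pos hi]
    apply Quotient.sound
    show b k ω' = b k hi.choose
    rw [hi.choose_spec, Equiv.apply_symm_apply]
  have h2 : Nul S (fun _ => Real.logb 2 (Fintype.card β)) := S.div_n_tendsto _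
  exact h2.of_le (Eventually.of_forall fun k => h_nonneg _ _) (Eventually.of_forall h1)

/-- **[ROW0]** -/
theorem row0_nul {s : MSys S N E ι} (t : Fin N) (W : ∀ k, Setoid (S.F k).Ω) {D : ℕ} {c : ℝ}
    (p : ∀ k, (S.F k).Ω → MvPolynomial (Fin N) ℝ) (hD : ∀ k ω, (p k ω).totalDegree ≤ D)
    (hv : ∀ k ω, ∀ i ∈ (p k ω).vars, i = t)
    (hfn : ∀ᶠ k in UF, ∀ ω ω', (S.F k).μ ω ≠ 0 → (S.F k).μ ω' ≠ 0 → (S.F k).Z ω ω' → W k ω ω' → p k ω = p k ω')
    (bd : ∃ K : ℕ → ℝ, S.Sub K ∧ S.Typ fun k ω => |MvPolynomial.eval (s.Q.v k ω) (p k ω)| ≤ K k)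
    (der : ∃ K : ℕ → ℝ, S.Sub K ∧ S.Typ fun k ω =>
      1 ≤ K k * (|MvPolynomial.eval (s.Q.v k ω) (MvPolynomial.pderiv t (p k ω))| * S.dl c k)) :
    Nul S (fun k => h (fc (Setoid.ker ((s.Q.co t).cellv c k))) (fc (W k))) := by
  classical
  obtain ⟨K, hK, hT⟩ := bd
  obtain ⟨L, hL, hT'⟩ := der
  obtain ⟨C₀, hC, hC'⟩ := two_close D
  -- good points
  set G : ∀ k, (S.F k).Ω → Prop := fun k ω => |MvPolynomial.eval (s.Q.v k ω) (p k ω)| ≤ K k ∧
    1 ≤ L k * (|MvPolynomial.eval (s.Q.v k ω) (MvPolynomial.pderiv t (p k ω))| * S.dl c k) with hG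
  set n : ℕ := 2 * (D + 1) + 1 with hn
  set T : ℕ → ℝ := fun k => C₀ * ((K k + 1) * (L k + 1)) with hTd
  -- the points of the class of `ω`
  set g : ∀ k, (S.F k).Ω → (S.F k).Ω → Prop := fun k ω ω' => (S.F k).μ ω' ≠ 0 ∧ (S.F k).Z ω ω' ∧ W k ω ω' ∧
    p k ω = p k ω' ∧ G k ω' with hg
  have key : ∀ k ω, 0 ≤ K k → 0 ≤ L k → ∃ R : Fin n → ℝ, ∀ a, g k ω a → ∃ i, |s.Q.v k a t - R i| ≤ T k * S.dl c k := by
    intro k ω hK0 hL0
    have hd := S.dl_pos c k
    refine exists_rp n (fun a => s.Q.v k a t) (T k * S.dl c k) ?_ (g k ω) fun f hf => ?_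
    · have : 0 ≤ T k := by
        show 0 ≤ C₀ * ((K k + 1) * (L k + 1))
        positivity
      positivity
    · obtain ⟨i, j, hij, h1⟩ := hC' (K k + 1) (1 / (L k + 1)) (S.dl c k) hd (by positivity) (by
        rw [div_le_iff₀ (by positivity)]
        nlinarith) (up t (p k ω)) (up_deg (hD k ω)) (fun i => s.Q.v k (f i) t) (fun i => by
          obtain ⟨_, _, _, h4, h5, _⟩ := hf i
          rw [← up_eval (hv k ω), h4]
          linarith) (fun i => by
          obtain ⟨_, _, _, h4, _, h6⟩ := hf i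
          rw [← up_der (hv k ω), h4, div_le_iff₀ (by positivity)]
          have h7 : 0 ≤ |MvPolynomial.eval (s.Q.v k (f i)) (MvPolynomial.pderiv t (p k (f i)))| * S.dl c k := by
            positivity
          nlinarith)
      refine ⟨i, j, hij, h1.trans (le_of_eq ?_)⟩
      show C₀ * ((K k + 1) / (1 / (L k + 1))) * S.dl c k = C₀ * ((K k + 1) * (L k + 1)) * S.dl c k
      rw [div_div_eq_mul_div, div_one]
  -- representatives as a function of the class
  set R : ∀ k, (S.F k).Ω → Fin n → ℝ := fun k ω => if h : ∃ R : Fin n → ℝ, ∀ a, g k ω a → ∃ i,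
    |s.Q.v k a t - R i| ≤ T k * S.dl c k then h.choose else fun _ => 0 with hR
  set idx : ∀ k, (S.F k).Ω → Fin n := fun k ω => if h : ∃ i, |s.Q.v k ω t - R k ω i| ≤ T k * S.dl c k then h.choose
    else ⟨0, by omega⟩ with hidx
  have hgood : S.Typ G := hT.and hT'
  have h1 : PLe (fun k => fc (Setoid.ker ((s.Q.co t).cellv c k))) (fun k => fc (W k ⊓ Setoid.ker (idx k))) := by
    refine PLe_cell_typ (s.Q.co t) c _ (fun k => 2 * T k) ?_ hgood ?_
    · exact (S.Sub_const (show (0 : ℝ) ≤ 2 by norm_num)).mul ((S.Sub_const (by linarith)).mul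
        ((hK.add (S.Sub_const zero_le_one)).mul (hL.add (S.Sub_const zero_le_one))))
    · filter_upwards [hfn, hK.1, hL.1] with k hk hK0 hL0 ω ω' a1 a2 a3 a4 a5 a6 i
      have hi : i = 0 := Subsingleton.elim _ _
      obtain ⟨a7, a8⟩ : W k ω ω' ∧ idx k ω = idx k ω' := a6
      have e1 : p k ω = p k ω' := hk ω ω' a1 a2 a5 a7
      have e2 : g k ω = g k ω' := by
        funext a
        apply propext
        show (_ ∧ _ ∧ _ ∧ _ ∧ _) ↔ (_ ∧ _ ∧ _ ∧ _ ∧ _)
        constructor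
        · rintro ⟨b1, b2, b3, b4, b5⟩
          exact ⟨b1, (S.F k).Z.trans ((S.F k).Z.symm a5) b2, (W k).trans ((W k).symm a7) b3, e1 ▸ b4, b5⟩
        · rintro ⟨b1, b2, b3, b4, b5⟩
          exact ⟨b1, (S.F k).Z.trans a5 b2, (W k).trans a7 b3, e1.trans b4, b5⟩
      have e3 : R k ω = R k ω' := by
        show (if h : ∃ R : Fin n → ℝ, ∀ a, g k ω a → ∃ i, |s.Q.v k a t - R i| ≤ T k * S.dl c k then h.choose
          else fun _ => 0) = if h : ∃ R : Fin n → ℝ, ∀ a, g k ω' a → ∃ i, |s.Q.v k a t - R i| ≤ T k * S.dl c k then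
            h.choose else fun _ => 0
        rw [e2]
      have q1 : ∀ ω, G k ω → (S.F k).μ ω ≠ 0 → |s.Q.v k ω t - R k ω (idx k ω)| ≤ T k * S.dl c k := by
        intro ω hG1 hμ
        have h5 : ∃ R : Fin n → ℝ, ∀ a, g k ω a → ∃ i, |s.Q.v k a t - R i| ≤ T k * S.dl c k := key k ω hK0 hL0
        have h6 : R k ω = h5.choose := dif_pos h5
        have h7 : ∃ i, |s.Q.v k ω t - R k ω i| ≤ T k * S.dl c k := by
          rw [h6]
          exact h5.choose_spec ω ⟨hμ, (S.F k).Z.refl ω, (W k).refl ω, rfl, hG1⟩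
        have h8 : idx k ω = h7.choose := dif_pos h7
        rw [h8]
        exact h7.choose_spec
      have q2 := q1 ω a3 a1
      have q3 := q1 ω' a4 a2
      rw [← a8, ← e3] at q3
      show |s.Q.v k ω t - s.Q.v k ω' t| ≤ 2 * T k * S.dl c k
      rw [abs_le] at q2 q3 ⊢
      constructor <;> linarith [q2.1, q2.2, q3.1, q3.2]
  have h2 : PLe (fun k => fc (W k ⊓ Setoid.ker (idx k))) (fun k => fc (W k)) := by
    have e1 : (fun k => fc (W k ⊓ Setoid.ker (idx k))) = fun k => fc (W k) ⊔ fc (Setoid.ker (idx k)) := rfl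
    rw [e1]
    exact PLe.sup_le (PLe.refl _) (nul_fin' idx _)
  exact h1.trans h2

end

end Pool.Agent.Helper56.R0
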